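import Pool.Agent.V11196.Cosheaf.NotAbelian

/-!
# A space whose category of cosheaves of abelian groups is not abelian

The space is the disjoint union of two copies of `ℕ`; its nonempty open sets are the unions of a tail
`[a, ∞)` of the first copy and a tail `[b, ∞)` of the second copy.  The monomorphism of cosheaves
`N₁ → N₂`, `(a, b) ↦ a + b`, is not a kernel.
-/

namespace Pool.Agent.Results.MP_c909fd_al.CosheavesNotAbelian

open CategoryTheory Pool.Agent.V11196.Cosheaf

theorem result : ∃ X : TopCat.{0}, IsEmpty (Abelian (CS X)) :=
  ⟨XS, not_abelian⟩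

end Pool.Agent.Results.MP_c909fd_al.CosheavesNotAbelian
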